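import Mathlib

/-!
The trilinear inequality on `ZMod G` used for the digit induction.
-/

set_option autoImplicit false

namespace Pool.Agent.Y927.DG

open Finset

/-- weight factor: `1` at `0`, `lam` elsewhere. -/
noncomputable def fac {G : ℕ} (lam : ℝ) (x : ZMod G) : ℝ := if x = 0 then 1 else lam

lemma cs {ι : Type*} (s : Finset ι) (f g : ι → ℝ) :
    ∑ i ∈ s, f i * g i ≤ √(∑ i ∈ s, f i ^ 2) * √(∑ i ∈ s, g i ^ 2) :=
  Real.sum_mul_le_sqrt_mul_sqrt s f g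

lemma final_ineq (f0 g0 h0 X Y Z l : ℝ) (hf : 0 ≤ f0) (hg : 0 ≤ g0)
    (hh : 0 ≤ h0) (hX : 0 ≤ X) (hY : 0 ≤ Y) (hZ : 0 ≤ Z) (hl : 0 ≤ l) (hl2 : l ≤ 1 / 2) :
    f0 * g0 * h0 + l * (f0 * (Y * Z)) + l * (g0 * (X * Z)) + l ^ 2 * (h0 * (X * Y))
      + 1 / 2 * (X * (Y * Z)) ≤
    √(f0 ^ 2 + X ^ 2) * √(g0 ^ 2 + Y ^ 2) * √(h0 ^ 2 + Z ^ 2) := by
  rw [← Real.sqrt_mul (by positivity), ← Real.sqrt_mul (by positivity)]
  apply Real.le_sqrt_of_sq_le
  have e1 : f0 * g0 * h0 + l * (f0 * (Y * Z)) + l * (g0 * (X * Z)) + l ^ 2 * (h0 * (X * Y))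
      + 1 / 2 * (X * (Y * Z)) =
      (f0 * g0 + l ^ 2 * (X * Y)) * h0 + (l * (f0 * Y) + l * (g0 * X) + 1 / 2 * (X * Y)) * Z := by
    ring
  rw [e1]
  set P := f0 * g0 + l ^ 2 * (X * Y) with hP
  set Q := l * (f0 * Y) + l * (g0 * X) + 1 / 2 * (X * Y) with hQ
  have hcs : (P * h0 + Q * Z) ^ 2 ≤ (P ^ 2 + Q ^ 2) * (h0 ^ 2 + Z ^ 2) := by
    nlinarith [sq_nonneg (P * Z - Q * h0)]
  refine hcs.trans ?_
  apply mul_le_mul_of_nonneg_right _ (by positivity)
  have hl4 : l ^ 2 ≤ 1 / 4 := by nlinarith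
  have hXY : 0 ≤ X * Y := by positivity
  have hP' : P ≤ f0 * g0 + 1 / 4 * (X * Y) := by
    rw [hP]
    have := mul_le_mul_of_nonneg_right hl4 hXY
    linarith
  have hP0 : 0 ≤ P := by positivity
  have hQ0 : 0 ≤ Q := by positivity
  have hQ' : Q ≤ 1 / 2 * (f0 * Y + g0 * X + X * Y) := by
    have h1 : 0 ≤ f0 * Y := by positivity
    have h2 : 0 ≤ g0 * X := by positivity
    rw [hQ]
    have := mul_le_mul_of_nonneg_right hl2 h1
    have := mul_le_mul_of_nonneg_right hl2 h2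
    linarith
  have hP2 : P ^ 2 ≤ (f0 * g0 + 1 / 4 * (X * Y)) ^ 2 := pow_le_pow_left₀ hP0 hP' 2
  have hQ2 : Q ^ 2 ≤ (1 / 2 * (f0 * Y + g0 * X + X * Y)) ^ 2 := pow_le_pow_left₀ hQ0 hQ' 2
  have key : ∀ a p q m : ℝ, a * m = p * q →
      (a + 1 / 4 * m) ^ 2 + (1 / 2 * (p + q + m)) ^ 2 ≤ a ^ 2 + p ^ 2 + q ^ 2 + m ^ 2 := by
    intro a p q m h
    nlinarith [sq_nonneg (p - q), sq_nonneg (p - m), sq_nonneg (q - m), sq_nonneg m]
  have k2 := key (f0 * g0) (f0 * Y) (g0 * X) (X * Y) (by ring)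
  calc P ^ 2 + Q ^ 2 ≤ _ := add_le_add hP2 hQ2
    _ ≤ _ := k2
    _ = (f0 ^ 2 + X ^ 2) * (g0 ^ 2 + Y ^ 2) := by ring

lemma tri {G : ℕ} [NeZero G] (n : ℕ) (hn : 2 ≤ n) (hG : G = n ^ 2) (f g h : ZMod G → ℝ)
    (hf : ∀ x, 0 ≤ f x) (hg : ∀ x, 0 ≤ g x) (hh : ∀ x, 0 ≤ h x) (lam : ℝ) (hl0 : 0 ≤ lam)
    (hl : lam ^ 2 = 1 / (2 * n)) :
    ∑ x, ∑ y, fac lam x * fac lam y * (f x * g y * h (x + y)) ≤
      √(∑ x, f x ^ 2) * √(∑ x, g x ^ 2) * √(∑ x, h x ^ 2) := by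
  classical
  have hn0 : (0 : ℝ) < n := by positivity
  have hn2 : (2 : ℝ) ≤ n := by exact_mod_cast hn
  have hl2 : lam ≤ 1 / 2 := by
    have : lam ^ 2 ≤ (1 / 2) ^ 2 := by
      rw [hl]; rw [div_le_iff₀ (by positivity)]; nlinarith
    nlinarith
  -- split into zero and nonzero parts
  set u : Finset (ZMod G) := Finset.univ.erase 0 with hu
  have split1 : ∀ φ : ZMod G → ℝ, ∑ x, φ x = φ 0 + ∑ x ∈ u, φ x := by
    intro φ
    rw [hu, Finset.add_sum_erase _ _ (Finset.mem_univ 0)]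
  have hu0 : ∀ x ∈ u, x ≠ 0 := by
    intro x hx; exact Finset.ne_of_mem_erase hx
  set X := √(∑ x ∈ u, f x ^ 2) with hX
  set Y := √(∑ x ∈ u, g x ^ 2) with hY
  set Z := √(∑ x ∈ u, h x ^ 2) with hZ
  have X0 : 0 ≤ X := Real.sqrt_nonneg _
  have Y0 : 0 ≤ Y := Real.sqrt_nonneg _
  have Z0 : 0 ≤ Z := Real.sqrt_nonneg _
  have X2 : X ^ 2 = ∑ x ∈ u, f x ^ 2 := Real.sq_sqrt (Finset.sum_nonneg fun _ _ => sq_nonneg _)
  have Y2 : Y ^ 2 = ∑ x ∈ u, g x ^ 2 := Real.sq_sqrt (Finset.sum_nonneg fun _ _ => sq_nonneg _)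
  have Z2 : Z ^ 2 = ∑ x ∈ u, h x ^ 2 := Real.sq_sqrt (Finset.sum_nonneg fun _ _ => sq_nonneg _)
  rw [split1 (fun x => f x ^ 2), split1 (fun x => g x ^ 2), split1 (fun x => h x ^ 2),
    ← X2, ← Y2, ← Z2]
  refine le_trans ?_ (final_ineq (f 0) (g 0) (h 0) X Y Z lam (hf 0) (hg 0) (hh 0) X0 Y0 Z0 hl0 hl2)
  rw [split1]
  rw [split1 (fun y => fac lam (0 : ZMod G) * fac lam y * (f 0 * g y * h (0 + y)))]
  have t0 : fac lam (0 : ZMod G) = 1 := by simp [fac]
  have t1 : ∀ x ∈ u, fac lam x = lam := by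
    intro x hx; simp [fac, hu0 x hx]
  -- second sum
  have s2 : ∑ y ∈ u, fac lam (0 : ZMod G) * fac lam y * (f 0 * g y * h (0 + y)) ≤ lam * (f 0 * (Y * Z)) := by
    have : ∑ y ∈ u, fac lam (0 : ZMod G) * fac lam y * (f 0 * g y * h (0 + y)) =
        lam * (f 0 * ∑ y ∈ u, g y * h y) := by
      rw [Finset.mul_sum, Finset.mul_sum]
      apply Finset.sum_congr rfl
      intro y hy
      rw [t0, t1 y hy, zero_add]; ring
    rw [this]
    apply mul_le_mul_of_nonneg_left _ hl0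
    exact mul_le_mul_of_nonneg_left (cs u g h) (hf 0)
  -- third and fourth
  have s34 : ∀ x ∈ u, ∑ y, fac lam x * fac lam y * (f x * g y * h (x + y)) =
      lam * (g 0 * (f x * h x)) + lam ^ 2 * (f x * ∑ y ∈ u, g y * h (x + y)) := by
    intro x hx
    rw [split1, t0, t1 x hx, add_zero]
    congr 1
    · ring
    · rw [Finset.mul_sum, Finset.mul_sum]
      apply Finset.sum_congr rfl
      intro y hy
      rw [t1 y hy]; ring
  rw [Finset.sum_congr rfl s34, Finset.sum_add_distrib, ← Finset.mul_sum, ← Finset.mul_sum,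
    ← Finset.mul_sum]
  have s3 : lam * (g 0 * ∑ x ∈ u, f x * h x) ≤ lam * (g 0 * (X * Z)) := by
    apply mul_le_mul_of_nonneg_left _ hl0
    exact mul_le_mul_of_nonneg_left (cs u f h) (hg 0)
  -- inner sum
  have s4a : ∀ x ∈ u, ∑ y ∈ u, g y * h (x + y) ≤ g (-x) * h 0 + Y * Z := by
    intro x hx
    have hxu : -x ∈ u := by
      rw [hu, Finset.mem_erase]
      exact ⟨neg_ne_zero.mpr (hu0 x hx), Finset.mem_univ _⟩
    rw [← Finset.add_sum_erase u _ hxu, add_neg_cancel]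
    have : ∑ y ∈ u.erase (-x), g y * h (x + y) ≤ Y * Z := by
      refine (cs (u.erase (-x)) g (fun y => h (x + y))).trans ?_
      apply mul_le_mul _ _ (Real.sqrt_nonneg _) Y0
      · apply Real.sqrt_le_sqrt
        exact Finset.sum_le_sum_of_subset_of_nonneg (Finset.erase_subset _ _)
          (fun _ _ _ => sq_nonneg _)
      · apply Real.sqrt_le_sqrt
        have hinj : Set.InjOn (fun y => x + y) (u.erase (-x) : Finset (ZMod G)) := by
          intro a _ b _ hab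
          exact add_left_cancel hab
        rw [← Finset.sum_image (f := fun z => h z ^ 2) (g := fun y => x + y) hinj]
        apply Finset.sum_le_sum_of_subset_of_nonneg
        · intro z hz
          rw [Finset.mem_image] at hz
          obtain ⟨y, hy, rfl⟩ := hz
          rw [hu, Finset.mem_erase]
          refine ⟨?_, Finset.mem_univ _⟩
          intro h0
          exact (Finset.ne_of_mem_erase hy) (eq_neg_of_add_eq_zero_right h0)
        · intro _ _ _; exact sq_nonneg _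
    linarith
  have s4b : ∑ x ∈ u, f x * ∑ y ∈ u, g y * h (x + y) ≤
      h 0 * (X * Y) + (n : ℝ) * (X * (Y * Z)) := by
    have c1 : ∑ x ∈ u, f x * ∑ y ∈ u, g y * h (x + y) ≤
        ∑ x ∈ u, f x * (g (-x) * h 0 + Y * Z) :=
      Finset.sum_le_sum fun x hx => mul_le_mul_of_nonneg_left (s4a x hx) (hf x)
    have c2 : ∑ x ∈ u, f x * (g (-x) * h 0 + Y * Z) =
        h 0 * (∑ x ∈ u, f x * g (-x)) + (∑ x ∈ u, f x * 1) * (Y * Z) := by
      rw [Finset.mul_sum, Finset.sum_mul, ← Finset.sum_add_distrib]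
      apply Finset.sum_congr rfl
      intro x _
      ring
    have c3 : ∑ x ∈ u, f x * g (-x) ≤ X * Y := by
      refine (cs u f (fun x => g (-x))).trans ?_
      apply mul_le_mul_of_nonneg_left _ X0
      apply Real.sqrt_le_sqrt
      apply le_of_eq
      refine Finset.sum_bij' (fun x _ => -x) (fun x _ => -x) ?_ ?_ ?_ ?_ ?_
      · intro a ha; rw [hu, Finset.mem_erase]
        exact ⟨neg_ne_zero.mpr (hu0 a ha), Finset.mem_univ _⟩
      · intro a ha; rw [hu, Finset.mem_erase]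
        exact ⟨neg_ne_zero.mpr (hu0 a ha), Finset.mem_univ _⟩
      · intro a _; exact neg_neg a
      · intro a _; exact neg_neg a
      · intro a _; rfl
    have c4 : ∑ x ∈ u, f x * 1 ≤ X * n := by
      refine (cs u f (fun _ => 1)).trans ?_
      apply mul_le_mul_of_nonneg_left _ X0
      rw [Real.sqrt_le_left hn0.le]
      have : (u.card : ℝ) ≤ (n : ℝ) ^ 2 := by
        have : u.card ≤ G := by
          calc u.card ≤ (Finset.univ : Finset (ZMod G)).card := Finset.card_le_univ _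
            _ = G := by rw [Finset.card_univ, ZMod.card]
        have h2 : u.card ≤ n ^ 2 := this.trans hG.le
        exact_mod_cast h2
      simpa using this
    calc ∑ x ∈ u, f x * ∑ y ∈ u, g y * h (x + y) ≤ _ := c1
      _ = _ := c2
      _ ≤ h 0 * (X * Y) + (X * n) * (Y * Z) := by
          apply add_le_add
          · exact mul_le_mul_of_nonneg_left c3 (hh 0)
          · exact mul_le_mul_of_nonneg_right c4 (by positivity)
      _ = _ := by ring
  have s4 : lam ^ 2 * ∑ x ∈ u, f x * ∑ y ∈ u, g y * h (x + y) ≤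
      lam ^ 2 * (h 0 * (X * Y)) + 1 / 2 * (X * (Y * Z)) := by
    calc lam ^ 2 * ∑ x ∈ u, f x * ∑ y ∈ u, g y * h (x + y) ≤
        lam ^ 2 * (h 0 * (X * Y) + (n : ℝ) * (X * (Y * Z))) :=
          mul_le_mul_of_nonneg_left s4b (sq_nonneg _)
      _ = lam ^ 2 * (h 0 * (X * Y)) + (lam ^ 2 * n) * (X * (Y * Z)) := by ring
      _ = _ := by
          rw [hl]
          congr 2
          field_simp
  have s1 : fac lam (0 : ZMod G) * fac lam (0 : ZMod G) * (f 0 * g 0 * h (0 + 0)) = f 0 * g 0 * h 0 := by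
    rw [t0, add_zero]; ring
  rw [s1]
  linarith

end Pool.Agent.Y927.DG
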