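import Pool.Agent.Y927.DG.A

/-!
Balanced digits modulo `G`, the number of nonzero digits, and the weighted sumset inequality.
-/

set_option autoImplicit false

namespace Pool.Agent.Y927.DG

open Finset

/-- balanced digit -/
def dg (G : ℕ) (a : ℤ) : ℤ := ((a : ZMod G)).valMinAbs

/-- balanced quotient -/
def qt (G : ℕ) (a : ℤ) : ℤ := (a - dg G a) / G

lemma dg_bounds (G : ℕ) [NeZero G] (a : ℤ) : -(G : ℤ) < 2 * dg G a ∧ 2 * dg G a ≤ G := by
  have h := ZMod.valMinAbs_mem_Ioc ((a : ZMod G))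
  unfold dg
  constructor
  · have := h.1; linarith
  · have := h.2; linarith

lemma coe_dg (G : ℕ) (a : ℤ) : ((dg G a : ℤ) : ZMod G) = (a : ZMod G) := by
  unfold dg
  exact ZMod.coe_valMinAbs _

lemma dvd_sub_dg (G : ℕ) (a : ℤ) : (G : ℤ) ∣ a - dg G a := by
  rw [← ZMod.intCast_zmod_eq_zero_iff_dvd]
  rw [Int.cast_sub, coe_dg, sub_self]

lemma eq_dg_qt (G : ℕ) (a : ℤ) : a = dg G a + G * qt G a := by
  unfold qt
  rw [Int.mul_ediv_cancel' (dvd_sub_dg G a)]
  ring

lemma dg_eq_zero (G : ℕ) (a : ℤ) : dg G a = 0 ↔ (a : ZMod G) = 0 := by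
  unfold dg
  exact ZMod.valMinAbs_eq_zero _

/-- uniqueness of the digit and the quotient -/
lemma dg_unique (G : ℕ) [NeZero G] (a d b : ℤ) (h : a = d + G * b) (h1 : -(G : ℤ) < 2 * d)
    (h2 : 2 * d ≤ G) : dg G a = d ∧ qt G a = b := by
  have hG : (0 : ℤ) < G := by exact_mod_cast Nat.pos_of_ne_zero (NeZero.ne G)
  have e := eq_dg_qt G a
  have hb := dg_bounds G a
  have hd : dg G a - d = G * (b - qt G a) := by linarith
  have hlt : -(G : ℤ) < G * (b - qt G a) ∧ (G : ℤ) * (b - qt G a) < G := by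
    constructor
    · rw [← hd]; linarith [hb.1]
    · rw [← hd]; linarith [hb.2]
  have hz : b - qt G a = 0 := by
    have u1 : b - qt G a < 1 := by
      by_contra hc
      push Not at hc
      nlinarith [hlt.2]
    have u2 : -1 < b - qt G a := by
      by_contra hc
      push Not at hc
      nlinarith [hlt.1]
    omega
  rw [hz, mul_zero] at hd
  constructor
  · linarith
  · linarith

lemma qt_natAbs_lt (G : ℕ) (hG : 3 ≤ G) (a : ℤ) (n : ℕ) (ha : a.natAbs ≤ n + 1) :
    (qt G a).natAbs ≤ n := by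
  haveI : NeZero G := ⟨by omega⟩
  have e := eq_dg_qt G a
  have hb := dg_bounds G a
  have hG' : (3 : ℤ) ≤ G := by exact_mod_cast hG
  have h1 : |a| ≤ n + 1 := by
    rw [Int.abs_eq_natAbs]; exact_mod_cast ha
  have h2 : |qt G a| ≤ n := by
    rw [abs_le] at h1 ⊢
    constructor
    · by_contra hc
      push Not at hc
      have : qt G a ≤ -n - 1 := by omega
      nlinarith
    · by_contra hc
      push Not at hc
      have : (n : ℤ) + 1 ≤ qt G a := by omega
      nlinarith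
  rw [Int.abs_eq_natAbs] at h2
  exact_mod_cast h2

/-- number of nonzero digits, with fuel -/
def wf (G : ℕ) : ℕ → ℤ → ℕ
  | 0, _ => 0
  | n + 1, a => (if (a : ZMod G) = 0 then 0 else 1) + wf G n (qt G a)

lemma qt_zero (G : ℕ) : qt G 0 = 0 := by
  simp [qt, dg]

lemma wf_zero (G : ℕ) (n : ℕ) : wf G n 0 = 0 := by
  induction n with
  | zero => rfl
  | succ n ih => simp [wf, qt_zero, ih]

lemma wf_stable (G : ℕ) (hG : 3 ≤ G) : ∀ (n : ℕ) (m : ℕ) (a : ℤ), a.natAbs ≤ n → n ≤ m →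
    wf G m a = wf G n a := by
  intro n
  induction n with
  | zero =>
    intro m a ha _
    have : a = 0 := by omega
    rw [this, wf_zero, wf_zero]
  | succ n ih =>
    intro m a ha hm
    obtain ⟨m', rfl⟩ : ∃ m', m = m' + 1 := ⟨m - 1, by omega⟩
    simp only [wf]
    rw [ih m' (qt G a) (qt_natAbs_lt G hG a n ha) (by omega)]

/-- the number of nonzero balanced digits of `a` in base `G`. -/
def w (G : ℕ) (a : ℤ) : ℕ := wf G a.natAbs a

lemma w_zero (G : ℕ) : w G 0 = 0 := wf_zero G _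

lemma w_eq (G : ℕ) (hG : 3 ≤ G) (a : ℤ) :
    w G a = (if (a : ZMod G) = 0 then 0 else 1) + w G (qt G a) := by
  have h1 : w G a = wf G (a.natAbs + 1) a := (wf_stable G hG _ _ a le_rfl (Nat.le_succ _)).symm
  rw [h1]
  simp only [wf]
  congr 1
  unfold w
  refine wf_stable G hG _ _ _ le_rfl ?_
  rcases Nat.eq_zero_or_pos a.natAbs with h0 | h0
  · have : a = 0 := by omega
    rw [this, qt_zero]
  · have := qt_natAbs_lt G hG a (a.natAbs - 1) (by omega)
    omega

lemma w_mk (G : ℕ) (hG : 3 ≤ G) (d b : ℤ) (h1 : -(G : ℤ) < 2 * d) (h2 : 2 * d ≤ G) :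
    w G (d + G * b) = (if d = 0 then 0 else 1) + w G b := by
  haveI : NeZero G := ⟨by omega⟩
  obtain ⟨e1, e2⟩ := dg_unique G (d + G * b) d b rfl h1 h2
  rw [w_eq G hG, e2]
  congr 1
  have := dg_eq_zero G (d + G * b)
  rw [e1] at this
  simp only [this]

end Pool.Agent.Y927.DG
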