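import Pool.Agent.Y927.DG.B

/-!
The weighted sumset inequality.
-/

set_option autoImplicit false

namespace Pool.Agent.Y927.DG

open Finset

/-- weighted count of pairs with sum in `C` -/
noncomputable def T (G : ℕ) (lam : ℝ) (A B C : Finset ℤ) : ℝ :=
  ∑ a ∈ A, ∑ b ∈ B, if a + b ∈ C then lam ^ (w G a) * lam ^ (w G b) else 0

/-- the elements of `A` in the class `x` -/
def cl (G : ℕ) (A : Finset ℤ) (x : ZMod G) : Finset ℤ := A.filter (fun a => (a : ZMod G) = x)

lemma sum_cl (G : ℕ) [NeZero G] (A : Finset ℤ) (φ : ℤ → ℝ) :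
    ∑ a ∈ A, φ a = ∑ x : ZMod G, ∑ a ∈ cl G A x, φ a := by
  unfold cl
  exact (Finset.sum_fiberwise A (fun a : ℤ => (a : ZMod G)) φ).symm

lemma card_cl (G : ℕ) [NeZero G] (A : Finset ℤ) :
    ∑ x : ZMod G, ((cl G A x).card : ℝ) = A.card := by
  have := sum_cl G A (fun _ => 1)
  simp only [Finset.sum_const, nsmul_eq_mul, mul_one] at this
  exact this.symm

/-- the quotients -/
def qs (G : ℕ) (A : Finset ℤ) (x : ZMod G) : Finset ℤ := (cl G A x).image (qt G)

lemma mem_cl (G : ℕ) (A : Finset ℤ) (x : ZMod G) (a : ℤ) :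
    a ∈ cl G A x ↔ a ∈ A ∧ (a : ZMod G) = x := by
  simp [cl]

lemma dg_of_cl (G : ℕ) (a : ℤ) (x : ZMod G) (h : (a : ZMod G) = x) : dg G a = x.valMinAbs := by
  unfold dg; rw [h]

lemma qt_inj (G : ℕ) (A : Finset ℤ) (x : ZMod G) : Set.InjOn (qt G) (cl G A x : Finset ℤ) := by
  intro a ha b hb hab
  rw [Finset.mem_coe, mem_cl] at ha hb
  rw [eq_dg_qt G a, eq_dg_qt G b, hab, dg_of_cl G a x ha.2, dg_of_cl G b x hb.2]

lemma sum_qs (G : ℕ) [NeZero G] (A : Finset ℤ) (x : ZMod G) (φ : ℤ → ℝ) :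
    ∑ a ∈ cl G A x, φ a = ∑ b ∈ qs G A x, φ (x.valMinAbs + G * b) := by
  unfold qs
  rw [Finset.sum_image (qt_inj G A x)]
  apply Finset.sum_congr rfl
  intro a ha
  rw [mem_cl] at ha
  have := eq_dg_qt G a
  rw [dg_of_cl G a x ha.2] at this
  rw [← this]

lemma card_qs (G : ℕ) (A : Finset ℤ) (x : ZMod G) : (qs G A x).card = (cl G A x).card :=
  Finset.card_image_of_injOn (qt_inj G A x)

/-- the shifted quotients -/
def sh (G : ℕ) (C : Finset ℤ) (x y : ZMod G) : Finset ℤ :=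
  (cl G C (x + y)).image (fun c => (c - (x.valMinAbs + y.valMinAbs)) / G)

lemma mem_sh (G : ℕ) [NeZero G] (C : Finset ℤ) (x y : ZMod G) (n : ℤ)
    (h : x.valMinAbs + y.valMinAbs + G * n ∈ C) : n ∈ sh G C x y := by
  have hG : (G : ℤ) ≠ 0 := by exact_mod_cast NeZero.ne G
  unfold sh
  rw [Finset.mem_image]
  refine ⟨_, (mem_cl G C _ _).2 ⟨h, ?_⟩, ?_⟩
  · push_cast
    simp [ZMod.coe_valMinAbs]
  · rw [add_sub_cancel_left, Int.mul_ediv_cancel_left _ hG]

lemma card_sh (G : ℕ) (C : Finset ℤ) (x y : ZMod G) :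
    (sh G C x y).card ≤ (cl G C (x + y)).card := Finset.card_image_le

lemma w_split (G : ℕ) [NeZero G] (hG : 3 ≤ G) (lam : ℝ) (x : ZMod G) (b : ℤ) :
    lam ^ (w G (x.valMinAbs + G * b)) = fac lam x * lam ^ (w G b) := by
  have h := ZMod.valMinAbs_mem_Ioc x
  rw [w_mk G hG _ _ (by linarith [h.1]) (by linarith [h.2]), pow_add]
  congr 1
  unfold fac
  by_cases hx : x = 0
  · simp [hx]
  · have : x.valMinAbs ≠ 0 := by
      intro h0; exact hx ((ZMod.valMinAbs_eq_zero x).1 h0)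
    simp [hx, this]

lemma fac_nonneg {G : ℕ} (lam : ℝ) (hl : 0 ≤ lam) (x : ZMod G) : 0 ≤ fac lam x := by
  unfold fac; split_ifs
  · exact zero_le_one
  · exact hl

lemma T_nonneg (G : ℕ) (lam : ℝ) (hl : 0 ≤ lam) (A B C : Finset ℤ) : 0 ≤ T G lam A B C := by
  unfold T
  refine Finset.sum_nonneg fun a _ => Finset.sum_nonneg fun b _ => ?_
  split_ifs
  · positivity
  · exact le_rfl

lemma T_step (G : ℕ) [NeZero G] (hG : 3 ≤ G) (lam : ℝ) (hl : 0 ≤ lam) (A B C : Finset ℤ) :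
    T G lam A B C ≤ ∑ x : ZMod G, ∑ y : ZMod G, fac lam x * fac lam y *
      T G lam (qs G A x) (qs G B y) (sh G C x y) := by
  have e1 : T G lam A B C = ∑ x : ZMod G, ∑ y : ZMod G, ∑ a ∈ qs G A x, ∑ b ∈ qs G B y,
      if (x.valMinAbs + G * a) + (y.valMinAbs + G * b) ∈ C then
        lam ^ (w G (x.valMinAbs + G * a)) * lam ^ (w G (y.valMinAbs + G * b)) else 0 := by
    unfold T
    rw [sum_cl G A]
    apply Finset.sum_congr rfl
    intro x _
    rw [sum_qs G A x, Finset.sum_comm, sum_cl G B]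
    apply Finset.sum_congr rfl
    intro y _
    rw [sum_qs G B y, Finset.sum_comm]
  rw [e1]
  refine Finset.sum_le_sum fun x _ => Finset.sum_le_sum fun y _ => ?_
  unfold T
  rw [Finset.mul_sum]
  refine Finset.sum_le_sum fun a _ => ?_
  rw [Finset.mul_sum]
  refine Finset.sum_le_sum fun b _ => ?_
  rw [w_split G hG, w_split G hG]
  have f1 := fac_nonneg lam hl x
  have f2 := fac_nonneg lam hl y
  have f3 : (0 : ℝ) ≤ lam ^ (w G a) := by positivity
  have f4 : (0 : ℝ) ≤ lam ^ (w G b) := by positivity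
  by_cases hc : (x.valMinAbs + G * a) + (y.valMinAbs + G * b) ∈ C
  · have hm : a + b ∈ sh G C x y := by
      apply mem_sh
      have : x.valMinAbs + y.valMinAbs + G * (a + b) =
        (x.valMinAbs + G * a) + (y.valMinAbs + G * b) := by ring
      rw [this]; exact hc
    rw [if_pos hc, if_pos hm]
    apply le_of_eq; ring
  · rw [if_neg hc]
    split_ifs
    · positivity
    · simp

theorem T_le (n : ℕ) (hn : 2 ≤ n) (lam : ℝ) (hl0 : 0 ≤ lam) (hl : lam ^ 2 = 1 / (2 * n)) :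
    ∀ (m : ℕ) (A B C : Finset ℤ), (∀ a ∈ A, a.natAbs ≤ m) → (∀ b ∈ B, b.natAbs ≤ m) →
      T (n ^ 2) lam A B C ≤ √(A.card : ℝ) * √(B.card : ℝ) * √(C.card : ℝ) := by
  have hG3 : 3 ≤ n ^ 2 := by nlinarith
  have : NeZero (n ^ 2) := ⟨by omega⟩
  intro m
  induction m with
  | zero =>
    intro A B C hA hB
    rcases A.eq_empty_or_nonempty with rfl | hA1
    · simp [T]
    rcases B.eq_empty_or_nonempty with rfl | hB1
    · simp [T]
    have hA2 : A = {0} := by
      apply Finset.eq_singleton_iff_nonempty_unique_mem.2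
      refine ⟨hA1, fun a ha => ?_⟩
      have := hA a ha
      omega
    have hB2 : B = {0} := by
      apply Finset.eq_singleton_iff_nonempty_unique_mem.2
      refine ⟨hB1, fun a ha => ?_⟩
      have := hB a ha
      omega
    rw [hA2, hB2]
    simp only [T, Finset.sum_singleton, Finset.card_singleton, Nat.cast_one, Real.sqrt_one,
      one_mul, w_zero, pow_zero, add_zero]
    split_ifs with h0
    · have hc : (1 : ℝ) ≤ C.card := by
        exact_mod_cast Finset.card_pos.2 ⟨0, h0⟩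
      rw [show (1 : ℝ) = √1 by simp]
      exact Real.sqrt_le_sqrt hc
    · exact Real.sqrt_nonneg _
  | succ m ih =>
    intro A B C hA hB
    refine (T_step (n ^ 2) hG3 lam hl0 A B C).trans ?_
    have hq : ∀ (A : Finset ℤ), (∀ a ∈ A, a.natAbs ≤ m + 1) → ∀ x : ZMod (n ^ 2),
        ∀ a ∈ qs (n ^ 2) A x, a.natAbs ≤ m := by
      intro A hA x a ha
      rw [qs, Finset.mem_image] at ha
      obtain ⟨a0, ha0, rfl⟩ := ha
      rw [mem_cl] at ha0
      exact qt_natAbs_lt (n ^ 2) hG3 a0 m (hA a0 ha0.1)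
    have step : ∑ x : ZMod (n ^ 2), ∑ y : ZMod (n ^ 2), fac lam x * fac lam y *
        T (n ^ 2) lam (qs (n ^ 2) A x) (qs (n ^ 2) B y) (sh (n ^ 2) C x y) ≤
        ∑ x : ZMod (n ^ 2), ∑ y : ZMod (n ^ 2), fac lam x * fac lam y *
        (√((cl (n ^ 2) A x).card : ℝ) * √((cl (n ^ 2) B y).card : ℝ) *
          √((cl (n ^ 2) C (x + y)).card : ℝ)) := by
      refine Finset.sum_le_sum fun x _ => Finset.sum_le_sum fun y _ => ?_
      apply mul_le_mul_of_nonneg_left
      · refine (ih _ _ _ (hq A hA x) (hq B hB y)).trans ?_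
        rw [card_qs, card_qs]
        apply mul_le_mul_of_nonneg_left _ (by positivity)
        apply Real.sqrt_le_sqrt
        exact_mod_cast card_sh (n ^ 2) C x y
      · exact mul_nonneg (fac_nonneg lam hl0 x) (fac_nonneg lam hl0 y)
    refine step.trans ?_
    have key := tri (G := n ^ 2) n hn rfl (fun x => √((cl (n ^ 2) A x).card : ℝ))
      (fun x => √((cl (n ^ 2) B x).card : ℝ)) (fun x => √((cl (n ^ 2) C x).card : ℝ))
      (fun _ => Real.sqrt_nonneg _) (fun _ => Real.sqrt_nonneg _) (fun _ => Real.sqrt_nonneg _)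
      lam hl0 hl
    refine key.trans ?_
    have hsq : ∀ D : Finset ℤ, ∑ x : ZMod (n ^ 2), √((cl (n ^ 2) D x).card : ℝ) ^ 2 = D.card := by
      intro D
      rw [← card_cl (n ^ 2) D]
      apply Finset.sum_congr rfl
      intro x _
      exact Real.sq_sqrt (Nat.cast_nonneg _)
    rw [hsq, hsq, hsq]

/-- **Sumset inequality for few nonzero balanced digits.** -/
theorem card_mul_le (n : ℕ) (hn : 2 ≤ n) (A B C : Finset ℤ) (s t : ℕ)
    (hA : ∀ a ∈ A, w (n ^ 2) a ≤ s) (hB : ∀ b ∈ B, w (n ^ 2) b ≤ t)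
    (hC : ∀ a ∈ A, ∀ b ∈ B, a + b ∈ C) :
    A.card * B.card ≤ (2 * n) ^ (s + t) * C.card := by
  rcases A.eq_empty_or_nonempty with rfl | hA1
  · simp
  rcases B.eq_empty_or_nonempty with rfl | hB1
  · simp
  have hn0 : (0 : ℝ) < n := by positivity
  have hn2 : (2 : ℝ) ≤ n := by exact_mod_cast hn
  set lam : ℝ := √(1 / (2 * n)) with hlam
  have hl0 : 0 ≤ lam := Real.sqrt_nonneg _
  have hl : lam ^ 2 = 1 / (2 * n) := Real.sq_sqrt (by positivity)
  have hlpos : 0 < lam := Real.sqrt_pos.2 (by positivity)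
  have hl1 : lam ≤ 1 := by
    have : lam ^ 2 ≤ 1 := by
      rw [hl, div_le_one (by positivity)]; linarith
    nlinarith
  obtain ⟨m, hm⟩ : ∃ m : ℕ, (∀ a ∈ A, a.natAbs ≤ m) ∧ (∀ b ∈ B, b.natAbs ≤ m) := by
    refine ⟨(A ∪ B).sup Int.natAbs, fun a ha => ?_, fun b hb => ?_⟩
    · exact Finset.le_sup (f := Int.natAbs) (Finset.mem_union_left _ ha)
    · exact Finset.le_sup (f := Int.natAbs) (Finset.mem_union_right _ hb)
  have h1 := T_le n hn lam hl0 hl m A B C hm.1 hm.2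
  have h2 : (A.card : ℝ) * B.card * lam ^ (s + t) ≤ T (n ^ 2) lam A B C := by
    unfold T
    have : (A.card : ℝ) * B.card * lam ^ (s + t) = ∑ _a ∈ A, ∑ _b ∈ B, lam ^ (s + t) := by
      simp only [Finset.sum_const, nsmul_eq_mul]; ring
    rw [this]
    refine Finset.sum_le_sum fun a ha => Finset.sum_le_sum fun b hb => ?_
    rw [if_pos (hC a ha b hb), pow_add]
    apply mul_le_mul _ _ (by positivity) (by positivity)
    · exact pow_le_pow_of_le_one hl0 hl1 (hA a ha)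
    · exact pow_le_pow_of_le_one hl0 hl1 (hB b hb)
  have h3 := h2.trans h1
  have a0 : (0 : ℝ) < A.card := by exact_mod_cast Finset.card_pos.2 hA1
  have b0 : (0 : ℝ) < B.card := by exact_mod_cast Finset.card_pos.2 hB1
  have c0 : (0 : ℝ) ≤ C.card := Nat.cast_nonneg _
  have h4 : ((A.card : ℝ) * B.card * lam ^ (s + t)) ^ 2 ≤ A.card * B.card * C.card := by
    calc ((A.card : ℝ) * B.card * lam ^ (s + t)) ^ 2 ≤
        (√(A.card : ℝ) * √(B.card : ℝ) * √(C.card : ℝ)) ^ 2 :=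
          pow_le_pow_left₀ (by positivity) h3 2
      _ = A.card * B.card * C.card := by
          rw [mul_pow, mul_pow, Real.sq_sqrt a0.le, Real.sq_sqrt b0.le, Real.sq_sqrt c0]
  have h5 : (lam ^ (s + t)) ^ 2 = 1 / (2 * (n : ℝ)) ^ (s + t) := by
    rw [← pow_mul, mul_comm, pow_mul, hl, div_pow, one_pow]
  have h6 : (A.card : ℝ) * B.card * (1 / (2 * (n : ℝ)) ^ (s + t)) ≤ C.card := by
    have e : ((A.card : ℝ) * B.card * lam ^ (s + t)) ^ 2 =
        (A.card * B.card) * ((A.card : ℝ) * B.card * (1 / (2 * (n : ℝ)) ^ (s + t))) := by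
      rw [mul_pow, h5]; ring
    rw [e] at h4
    exact le_of_mul_le_mul_left h4 (by positivity)
  have h7 : (A.card : ℝ) * B.card ≤ (2 * (n : ℝ)) ^ (s + t) * C.card := by
    have p : (0 : ℝ) < (2 * (n : ℝ)) ^ (s + t) := by positivity
    rw [mul_one_div, div_le_iff₀ p] at h6
    linarith
  exact_mod_cast h7

end Pool.Agent.Y927.DG
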