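import Pool.Agent.Y927.DG.D

/-!
Digit changes, and the asymptotic forms.
-/

set_option autoImplicit false

namespace Pool.Agent.Y927.DG

open Finset

/-- the number of positions `i` at which the base `g` digits number `i` and `i + 1` of the natural
number `N` differ (the digits above the leading one are `0`). -/
def changes (g N : ℕ) : ℕ :=
  ((Finset.range (N + 1)).filter fun i => N / g ^ i % g ≠ N / g ^ (i + 1) % g).card

lemma tele (g : ℕ) (N : ℕ) (L : ℕ) :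
    ((g : ℤ) - 1) * N = -((N % g : ℕ) : ℤ) +
      (∑ i ∈ Finset.range L, (((N / g ^ i % g : ℕ) : ℤ) - ((N / g ^ (i + 1) % g : ℕ) : ℤ)) *
        (g : ℤ) ^ (i + 1)) +
      (g : ℤ) ^ L * (((g : ℤ) - 1) * ((N / g ^ L : ℕ) : ℤ) + ((N / g ^ L % g : ℕ) : ℤ)) := by
  induction L with
  | zero => simp
  | succ L ih =>
    rw [Finset.sum_range_succ]
    have e : ((N / g ^ L : ℕ) : ℤ) = g * ((N / g ^ (L + 1) : ℕ) : ℤ) + ((N / g ^ L % g : ℕ) : ℤ) := by
      have h1 : N / g ^ (L + 1) = N / g ^ L / g := by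
        rw [pow_succ, Nat.div_div_eq_div_mul]
      rw [h1]
      have := Nat.div_add_mod (N / g ^ L) g
      exact_mod_cast this.symm
    rw [ih, e]
    ring

lemma few_changes (g : ℕ) (hg : 2 ≤ g) (N : ℕ) : Few g (changes g N + 1) (((g : ℤ) - 1) * N) := by
  classical
  have hlt : N < g ^ (N + 1) :=
    lt_of_lt_of_le (Nat.lt_pow_self (by omega)) (Nat.pow_le_pow_right (by omega) (Nat.le_succ N))
  have h := tele g N (N + 1)
  rw [Nat.div_eq_of_lt hlt] at h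
  simp only [Nat.cast_zero, mul_zero, Nat.zero_mod, add_zero] at h
  set S := (Finset.range (N + 1)).filter fun i => N / g ^ i % g ≠ N / g ^ (i + 1) % g with hS
  have hsum : (∑ i ∈ Finset.range (N + 1),
      (((N / g ^ i % g : ℕ) : ℤ) - ((N / g ^ (i + 1) % g : ℕ) : ℤ)) * (g : ℤ) ^ (i + 1)) =
      ∑ i ∈ S, (((N / g ^ i % g : ℕ) : ℤ) - ((N / g ^ (i + 1) % g : ℕ) : ℤ)) *
        (g : ℤ) ^ (i + 1) := by
    rw [hS, Finset.sum_filter]
    apply Finset.sum_congr rfl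
    intro i _
    split_ifs with h0
    · rfl
    · push Not at h0
      rw [h0, sub_self, zero_mul]
  rw [hsum] at h
  refine ⟨(-((N % g : ℕ) : ℤ), 0) :: S.toList.map
    (fun i => (((N / g ^ i % g : ℕ) : ℤ) - ((N / g ^ (i + 1) % g : ℕ) : ℤ), i + 1)), ?_, ?_, ?_⟩
  · rw [List.length_cons, List.length_map, Finset.length_toList]
    unfold changes
    rw [← hS]
  · intro p hp
    have hg0 : 0 < g := by omega
    rw [List.mem_cons, List.mem_map] at hp
    rcases hp with rfl | ⟨i, _, rfl⟩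
    · have := Nat.mod_lt N hg0
      simp only [abs_neg, Nat.abs_cast]
      exact_mod_cast this
    · have h1 := Nat.mod_lt (N / g ^ i) hg0
      have h2 := Nat.mod_lt (N / g ^ (i + 1)) hg0
      rw [abs_lt]
      constructor
      · simp only; omega
      · simp only; omega
  · rw [List.map_cons, List.sum_cons, List.map_map, h]
    rw [pow_zero, mul_one]
    congr 1
    rw [← Finset.sum_map_toList]
    rfl

lemma Few.neg {g s : ℕ} {n : ℤ} (h : Few g s n) : Few g s (-n) := by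
  obtain ⟨l, hl, hc, rfl⟩ := h
  refine ⟨l.map (fun p => (-p.1, p.2)), by simpa using hl, ?_, ?_⟩
  · intro p hp
    rw [List.mem_map] at hp
    obtain ⟨q, hq, rfl⟩ := hp
    simpa using hc q hq
  · rw [List.map_map]
    have : ((fun p : ℤ × ℕ => p.1 * (g : ℤ) ^ p.2) ∘ fun p : ℤ × ℕ => (-p.1, p.2)) =
        fun p : ℤ × ℕ => -(p.1 * (g : ℤ) ^ p.2) := by
      funext p; simp
    rw [this]
    clear this hl hc
    induction l with
    | nil => simp
    | cons p l ih => simp only [List.map_cons, List.sum_cons, neg_add, ih]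

lemma Few.mono {g s t : ℕ} {n : ℤ} (h : Few g s n) (hst : s ≤ t) : Few g t n := by
  obtain ⟨l, hl, hc, e⟩ := h
  exact ⟨l, hl.trans hst, hc, e⟩

lemma few_changes_int (g : ℕ) (hg : 2 ≤ g) (a : ℤ) :
    Few g (changes g a.natAbs + 1) (((g : ℤ) - 1) * a + 0) := by
  have h := few_changes g hg a.natAbs
  rcases Int.natAbs_eq a with ha | ha
  · rw [← ha] at h
    rw [add_zero]; exact h
  · have h2 := h.neg
    have e : -(((g : ℤ) - 1) * (a.natAbs : ℤ)) = ((g : ℤ) - 1) * a + 0 := by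
      rw [ha]
      simp
    rw [e] at h2
    exact h2

/-- explicit form for digit changes -/
theorem kfold_changes (g : ℕ) (hg : 2 ≤ g) (k : ℕ) (hk : 1 ≤ k) (s : ℕ)
    (A : Finset ℤ) (h : ∀ a ∈ A, changes g a.natAbs ≤ s) :
    A.card ^ k ≤ (2 * g) ^ ((k - 1) * (k + 2) * (s + 1)) * (KS k A).card := by
  apply kfold g hg k hk (s + 1) ((g : ℤ) - 1) 0 (by
    have : (2 : ℤ) ≤ g := by exact_mod_cast hg
    omega) A
  intro a ha
  exact (few_changes_int g hg a).mono (by have := h a ha; omega)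

lemma KS_mono (k : ℕ) (A B : Finset ℤ) (h : B ⊆ A) : KS k B ⊆ KS k A := by
  intro x hx
  rw [mem_KS] at hx ⊢
  obtain ⟨f, hf, e⟩ := hx
  exact ⟨f, fun i => h (hf i), e⟩

/-- analytic form -/
lemma asym (g : ℕ) (hg : 2 ≤ g) (k : ℕ) (hk : 1 ≤ k) (ε : ℝ) (hε : 0 < ε) (d : ℕ) :
    ∃ δ : ℝ, 0 < δ ∧ ∃ c : ℝ, 0 < c ∧ ∀ (N M s : ℕ) (K : ℝ), 1 ≤ N → (N : ℝ) ^ (1 - δ) ≤ M →
      (s : ℝ) ≤ δ * Real.log N →
      (M : ℝ) ^ k ≤ (2 * (g : ℝ)) ^ ((k - 1) * (k + 2) * (s + d)) * K →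
      c * (N : ℝ) ^ ((k : ℝ) - ε) ≤ K := by
  have hg2 : (2 : ℝ) ≤ g := by exact_mod_cast hg
  set L := Real.log (2 * (g : ℝ)) with hL
  have hL0 : 0 < L := Real.log_pos (by linarith)
  set E : ℕ := (k - 1) * (k + 2) with hE
  have hden : 0 < (k : ℝ) + E * L + 1 := by positivity
  refine ⟨ε / ((k : ℝ) + E * L + 1), by positivity, 1 / (2 * (g : ℝ)) ^ (E * d), by positivity, ?_⟩
  intro N M s K hN hM hs hK
  set δ := ε / ((k : ℝ) + E * L + 1) with hδ
  have hδ0 : 0 < δ := by positivity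
  have hN1 : (1 : ℝ) ≤ N := by exact_mod_cast hN
  have hN0 : (0 : ℝ) < N := by linarith
  have hlog : 0 ≤ Real.log N := Real.log_nonneg hN1
  have g0 : (0 : ℝ) < 2 * g := by linarith
  have p1 : (N : ℝ) ^ ((1 - δ) * k) ≤ (M : ℝ) ^ k := by
    rw [Real.rpow_mul hN0.le, Real.rpow_natCast]
    exact pow_le_pow_left₀ (by positivity) hM k
  have p2 : (2 * (g : ℝ)) ^ (E * s) ≤ (N : ℝ) ^ (E * L * δ) := by
    have e1 : (2 * (g : ℝ)) ^ (E * s) = Real.exp (L * (E * s : ℕ)) := by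
      rw [hL, ← Real.rpow_natCast, Real.rpow_def_of_pos g0]
    rw [e1, Real.rpow_def_of_pos hN0]
    apply Real.exp_le_exp.2
    push_cast
    have : (E : ℝ) * L * s ≤ E * L * (δ * Real.log N) :=
      mul_le_mul_of_nonneg_left hs (by positivity)
    linarith
  have e2 : (2 * (g : ℝ)) ^ (E * (s + d)) = (2 * (g : ℝ)) ^ (E * d) * (2 * (g : ℝ)) ^ (E * s) := by
    rw [← pow_add]; congr 1; ring
  have hK0 : 0 ≤ K := by
    by_contra hc
    push Not at hc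
    have h1 : (2 * (g : ℝ)) ^ (E * (s + d)) * K < 0 :=
      mul_neg_of_pos_of_neg (by positivity) hc
    have h2 : (0 : ℝ) ≤ (M : ℝ) ^ k := by positivity
    linarith
  have p3 : (N : ℝ) ^ ((1 - δ) * k) ≤ (2 * (g : ℝ)) ^ (E * d) * ((N : ℝ) ^ (E * L * δ) * K) := by
    calc (N : ℝ) ^ ((1 - δ) * k) ≤ _ := p1
      _ ≤ (2 * (g : ℝ)) ^ (E * (s + d)) * K := hK
      _ = (2 * (g : ℝ)) ^ (E * d) * ((2 * (g : ℝ)) ^ (E * s) * K) := by rw [e2]; ring
      _ ≤ _ := by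
          apply mul_le_mul_of_nonneg_left _ (by positivity)
          exact mul_le_mul_of_nonneg_right p2 hK0
  have hexp : (k : ℝ) - ε ≤ (1 - δ) * k - E * L * δ := by
    have : δ * ((k : ℝ) + E * L + 1) = ε := by
      rw [hδ]; field_simp
    nlinarith
  have p4 : (N : ℝ) ^ ((k : ℝ) - ε) ≤ (N : ℝ) ^ ((1 - δ) * k - E * L * δ) :=
    Real.rpow_le_rpow_of_exponent_le hN1 hexp
  have p5 : (N : ℝ) ^ ((1 - δ) * k - E * L * δ) ≤ (2 * (g : ℝ)) ^ (E * d) * K := by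
    rw [Real.rpow_sub hN0, div_le_iff₀ (by positivity)]
    linarith
  rw [one_div, inv_mul_le_iff₀ (by positivity)]
  exact p4.trans p5

/-- product set -/
def KP (k : ℕ) (A : Finset ℤ) : Finset ℤ :=
  (Fintype.piFinset (fun _ : Fin k => A)).image (fun f : Fin k → ℤ => ∏ i, f i)

theorem conj_few (g : ℕ) (hg : 2 ≤ g) (k : ℕ) (hk : 1 ≤ k) (ε : ℝ) (hε : 0 < ε) :
    ∃ δ : ℝ, 0 < δ ∧ ∃ c : ℝ, 0 < c ∧ ∀ A B : Finset ℤ, A.Nonempty → B ⊆ A →
      (A.card : ℝ) ^ (1 - δ) ≤ B.card → ∀ (s : ℕ) (q t : ℤ), q ≠ 0 →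
      (s : ℝ) ≤ δ * Real.log A.card → (∀ b ∈ B, Few g s (q * b + t)) →
      c * (A.card : ℝ) ^ ((k : ℝ) - ε) ≤ max ((KS k A).card : ℝ) ((KP k A).card : ℝ) := by
  obtain ⟨δ, hδ, c, hc, H⟩ := asym g hg k hk ε hε 0
  refine ⟨δ, hδ, c, hc, ?_⟩
  intro A B hA hBA hB s q t hq hs hF
  apply le_max_of_le_left
  apply H A.card B.card s _ (Finset.card_pos.2 hA) hB hs
  have h1 := kfold g hg k hk s q t hq B hF
  have h2 : (KS k B).card ≤ (KS k A).card := Finset.card_le_card (KS_mono k A B hBA)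
  have h3 : B.card ^ k ≤ (2 * g) ^ ((k - 1) * (k + 2) * (s + 0)) * (KS k A).card := by
    rw [add_zero]
    exact h1.trans (Nat.mul_le_mul_left _ h2)
  exact_mod_cast h3

theorem conj_changes (g : ℕ) (hg : 2 ≤ g) (k : ℕ) (hk : 1 ≤ k) (ε : ℝ) (hε : 0 < ε) :
    ∃ δ : ℝ, 0 < δ ∧ ∃ c : ℝ, 0 < c ∧ ∀ A B : Finset ℤ, A.Nonempty → B ⊆ A →
      (A.card : ℝ) ^ (1 - δ) ≤ B.card →
      (∀ b ∈ B, (changes g b.natAbs : ℝ) ≤ δ * Real.log A.card) →
      c * (A.card : ℝ) ^ ((k : ℝ) - ε) ≤ max ((KS k A).card : ℝ) ((KP k A).card : ℝ) := by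
  obtain ⟨δ, hδ, c, hc, H⟩ := asym g hg k hk ε hε 1
  refine ⟨δ, hδ, c, hc, ?_⟩
  intro A B hA hBA hB hF
  have hN1 : (1 : ℝ) ≤ A.card := by exact_mod_cast Finset.card_pos.2 hA
  have hlog : 0 ≤ δ * Real.log A.card := mul_nonneg hδ.le (Real.log_nonneg hN1)
  apply le_max_of_le_left
  apply H A.card B.card ⌊δ * Real.log A.card⌋₊ _ (Finset.card_pos.2 hA) hB (Nat.floor_le hlog)
  have h1 := kfold_changes g hg k hk ⌊δ * Real.log A.card⌋₊ B
    (fun b hb => Nat.le_floor (hF b hb))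
  have h2 : (KS k B).card ≤ (KS k A).card := Finset.card_le_card (KS_mono k A B hBA)
  have h3 := h1.trans (Nat.mul_le_mul_left _ h2)
  exact_mod_cast h3

end Pool.Agent.Y927.DG
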